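import Pool.Agent.K9h35.TB.Act

/-!
# Ordered groups of height three
-/

set_option autoImplicit false

namespace Pool.Agent.K9h35.TB

open Pool.Agent.Y462.SS (Closed)

/-- Let `G` be a group with an order which has suprema and is invariant under left multiplication, and
let `δ` be an element such that the right multiplication by `δ` is a shift. Then the kernel of each
homomorphism `f` from `G` to `ℤ` with `f δ ≠ 0` is in `C`. -/
theorem kernel_main {C : ∀ (G : Type) [Group G], Prop} (hC : Closed C) (htri : HasCAT0Triangle C)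
    {G : Type} [Group G] [SemilatticeSup G] (hleft : ∀ g x y : G, x ≤ y → g * x ≤ g * y) (δ : G)
    (σ : G ≃o G) (hδ : ∀ x : G, σ x = x * δ) (hsh : IsShift σ)
    (f : G →* Multiplicative ℤ) (hf : f δ ≠ 1) : C f.ker := by
  have hzpow : ∀ (k : ℤ) (x : G), (σ ^ k) x = x * δ ^ k := by
    have hpos : ∀ (n : ℕ) (x : G), (σ ^ (n : ℤ)) x = x * δ ^ (n : ℤ) := by
      intro n
      induction n with
      | zero =>
        intro x
        rw [Nat.cast_zero, zzero, zpow_zero, mul_one]
      | succ n ih =>
        intro x
        rw [Nat.cast_succ, zadd, zone, ih, add_comm (n : ℤ) 1, zpow_add, zpow_one, hδ]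
        exact mul_assoc _ _ _
    intro k x
    rcases le_total 0 k with h | h
    · obtain ⟨n, rfl⟩ := Int.eq_ofNat_of_zero_le h
      exact hpos n x
    · obtain ⟨n, hn⟩ := Int.eq_ofNat_of_zero_le (neg_nonneg.2 h)
      have hk : k = -(n : ℤ) := by omega
      subst hk
      have h1 := hpos n ((σ ^ (-(n : ℤ))) x)
      rw [zneg] at h1
      have e : δ ^ (-(n : ℤ)) = (δ ^ (n : ℤ))⁻¹ := zpow_neg _ _
      rw [e, eq_mul_inv_iff_mul_eq]
      exact h1.symm
  refine shift_main hC htri hsh (Γ := f.ker) (A := G) ?_ ?_ ?_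
  · intro g x y h
    exact hleft _ _ _ h
  · intro g x
    rw [hδ, hδ]
    exact (mul_assoc _ _ _).symm
  · intro x
    refine (Set.finite_singleton (1 : f.ker)).subset ?_
    rintro g ⟨k, hk⟩
    rw [hzpow] at hk
    have h1 : (g : G) * x = x * δ ^ k := hk
    have h2 := congrArg f h1
    rw [map_mul, map_mul, map_zpow, (MonoidHom.mem_ker).1 g.2, one_mul] at h2
    have h3 : (f δ) ^ k = 1 := by
      have := h2.symm
      rwa [mul_eq_left] at this
    have h4 : k = 0 := by
      have h5 : k * Multiplicative.toAdd (f δ) = 0 := by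
        have h6 := congrArg Multiplicative.toAdd h3
        rwa [toAdd_zpow, toAdd_one, smul_eq_mul] at h6
      rcases mul_eq_zero.1 h5 with h6 | h6
      · exact h6
      · exact absurd (Multiplicative.toAdd.injective (by rw [h6, toAdd_one])) hf
    rw [h4, zpow_zero, mul_one] at h1
    exact Subtype.ext (mul_eq_right.1 h1)

end Pool.Agent.K9h35.TB
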