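import Pool.Agent.K9h35.TB.Conn
import Pool.Agent.K9h35.SQ.Main

/-!
# Groups acting on lattices with a shift
-/

set_option autoImplicit false

namespace Pool.Agent.K9h35.TB

open Pool.Agent.K9h35.SQ
open Pool.Agent.Y462.SS (Closed)

/-- `C` contains the groups which act properly and cocompactly on a simply connected triangle complex
of nonpositive curvature -/
def HasCAT0Triangle (C : ∀ (G : Type) [Group G], Prop) : Prop :=
  ∀ (V : Type) (X : Cx V) (G : Type) [Group G] [MulAction G V], IsNPCTriangle X →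
    SimplyConnected X → Acts G X → Geometric G X → C G

variable {A : Type} [SemilatticeSup A] {σ : A ≃o A} {Γ : Type} [Group Γ] [MulAction Γ A]

theorem smul_zpow (hcomm : ∀ (g : Γ) x, g • σ x = σ (g • x)) (g : Γ) (k : ℤ) (x : A) :
    g • (σ ^ k) x = (σ ^ k) (g • x) := by
  have hpos : ∀ (n : ℕ) (x : A), g • (σ ^ (n : ℤ)) x = (σ ^ (n : ℤ)) (g • x) := by
    intro n
    induction n with
    | zero =>
      intro x
      rw [Nat.cast_zero, zzero, zzero]
    | succ n ih =>
      intro x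
      rw [Nat.cast_succ, zadd, zadd, zone, zone, ih, hcomm]
  rcases le_total 0 k with h | h
  · obtain ⟨n, rfl⟩ := Int.eq_ofNat_of_zero_le h
    exact hpos n x
  · obtain ⟨n, hn⟩ := Int.eq_ofNat_of_zero_le (neg_nonneg.2 h)
    have hk : k = -(n : ℤ) := by omega
    subst hk
    have h1 := hpos n ((σ ^ (-(n : ℤ))) x)
    rw [zneg] at h1
    rw [h1, zneg']

/-- the action on the orbits -/
def vxAction (σ : A ≃o A) (Γ : Type) [Group Γ] [MulAction Γ A]
    (hcomm : ∀ (g : Γ) x, g • σ x = σ (g • x)) : MulAction Γ (Vx σ) where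
  smul g := Quotient.map (fun x => g • x) (by
    rintro x y ⟨k, rfl⟩
    exact ⟨k, (smul_zpow hcomm g k x).symm⟩)
  one_smul p := by
    obtain ⟨x, rfl⟩ := cl_surj σ p
    exact congrArg (cl σ) (one_smul Γ x)
  mul_smul g h p := by
    obtain ⟨x, rfl⟩ := cl_surj σ p
    exact congrArg (cl σ) (mul_smul g h x)

/-- Groups which act on a lattice with a shift such that the stabilizers of the orbits of the shift
are finite. -/
theorem shift_main {C : ∀ (G : Type) [Group G], Prop} (hC : Closed C) (htri : HasCAT0Triangle C)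
    [Nonempty A] (hσ : IsShift σ) (hmono : ∀ (g : Γ) (x y : A), x ≤ y → g • x ≤ g • y)
    (hcomm : ∀ (g : Γ) x, g • σ x = σ (g • x))
    (hst : ∀ x : A, {g : Γ | ∃ k : ℤ, g • x = (σ ^ k) x}.Finite) : C Γ := by
  letI := vxAction σ Γ hcomm
  have hcl : ∀ (g : Γ) (x : A), g • cl σ x = cl σ (g • x) := fun g x => rfl
  have hnr : ∀ (g : Γ) (p q : Vx σ), p ≠ q ∧ Nr σ p q → g • p ≠ g • q ∧ Nr σ (g • p) (g • q) := by
    rintro g p q ⟨h1, x, y, rfl, rfl, h2, h3⟩
    refine ⟨fun h => h1 (smul_left_cancel g h), g • x, g • y, rfl, rfl, hmono g _ _ h2, ?_⟩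
    rw [← hcomm]
    exact hmono g _ _ h3
  refine colim_main hC (fun _ X => IsNPCTriangle X) triangle_immersion htri (bt σ) (bt_npc hσ)
    (bt_simplyConnected hσ) ⟨hnr, ?_⟩ ?_
  · rintro g x _ ⟨a, b, rfl, h1, h2, h3⟩
    exact ⟨g • a, g • b, rfl, hnr g _ _ h1, hnr g _ _ h2, hnr g _ _ h3⟩
  · intro p
    obtain ⟨x, rfl⟩ := cl_surj σ p
    refine (hst x).subset ?_
    intro g hg
    have h1 : cl σ (g • x) = cl σ x := hg
    obtain ⟨k, hk⟩ := (cl_eq σ).1 h1.symm
    exact ⟨k, hk.symm⟩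

end Pool.Agent.K9h35.TB
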