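import Pool.Agent.K9h35.TB.Shift

/-!
# The triangle complex of a lattice with a shift is simply connected
-/

set_option autoImplicit false
set_option linter.unusedSectionVars false

namespace Pool.Agent.K9h35.TB

open Pool.Agent.K9h35.SQ

section lazy

variable {A : Type} [SemilatticeSup A] (σ : A ≃o A)

open Classical in
/-- one step, or none -/
noncomputable def lz (x y : Vx σ) : List (Vx σ) := if x = y then [] else [y]

theorem lz_self (x : Vx σ) : lz σ x x = [] := if_pos rfl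

theorem lz_ne {x y : Vx σ} (h : x ≠ y) : lz σ x y = [y] := if_neg h

theorem lz_isP {x y : Vx σ} (h : Nr σ x y) : IsP (bt σ).graph.Adj x (lz σ x y) := by
  by_cases h1 : x = y
  · subst h1
    rw [lz_self]
    trivial
  · rw [lz_ne σ h1]
    exact ⟨⟨h1, h⟩, trivial⟩

theorem lz_endp (x y : Vx σ) : endp x (lz σ x y) = y := by
  by_cases h1 : x = y
  · subst h1
    rw [lz_self]
    rfl
  · rw [lz_ne σ h1]
    rfl

/-- a path with `n` steps -/
noncomputable def lp (w : ℕ → Vx σ) : ℕ → List (Vx σ)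
  | 0 => []
  | n + 1 => lp w n ++ lz σ (w n) (w (n + 1))

theorem lp_endp (w : ℕ → Vx σ) (n : ℕ) : endp (w 0) (lp σ w n) = w n := by
  induction n with
  | zero => rfl
  | succ n ih =>
    rw [lp, endp_append, ih, lz_endp]

theorem lp_isP (w : ℕ → Vx σ) (n : ℕ) (h : ∀ i, Nr σ (w i) (w (i + 1))) :
    IsP (bt σ).graph.Adj (w 0) (lp σ w n) := by
  induction n with
  | zero => trivial
  | succ n ih =>
    rw [lp, isP_append]
    refine ⟨ih, ?_⟩
    rw [lp_endp]
    exact lz_isP σ (h n)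

theorem lp_const (w : ℕ → Vx σ) (n : ℕ) (h : ∀ i, w i = w (i + 1)) : lp σ w n = [] := by
  induction n with
  | zero => rfl
  | succ n ih =>
    rw [lp, ih, ← h n, lz_self]
    rfl

theorem lp_succ' (w : ℕ → Vx σ) (n : ℕ) :
    lp σ w (n + 1) = lz σ (w 0) (w 1) ++ lp σ (fun i => w (i + 1)) n := by
  induction n with
  | zero => simp [lp]
  | succ n ih =>
    rw [lp, ih, lp, List.append_assoc]

variable {σ}

/-- triangles -/
theorem tri_hmt {x y z : Vx σ} (h1 : Nr σ x y) (h2 : Nr σ y z) (h3 : Nr σ x z) :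
    Hmt (bt σ) x (lz σ x y ++ lz σ y z) (lz σ x z) := by
  by_cases e1 : x = y
  · subst e1
    rw [lz_self]
    exact Hmt.refl _ _
  by_cases e2 : y = z
  · subst e2
    rw [lz_self, List.append_nil]
    exact Hmt.refl _ _
  by_cases e3 : x = z
  · subst e3
    rw [lz_self, lz_ne σ e1, lz_ne σ e2]
    exact Hmt.back ⟨e1, h1⟩
  · rw [lz_ne σ e1, lz_ne σ e2, lz_ne σ e3]
    have g1 : Hmt (bt σ) x ([y, z, x] ++ [z]) [z] :=
      Hmt.cell ⟨y, z, rfl, ⟨e1, h1⟩, ⟨e2, h2⟩, ⟨Ne.symm e3, nr_symm σ h3⟩⟩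
    have g2 : Hmt (bt σ) x ([y, z, x] ++ [z]) [y, z] := by
      refine Hmt.cons (Hmt.cons ?_)
      exact Hmt.back ⟨Ne.symm e3, nr_symm σ h3⟩
    exact g2.symm.trans g1

/-- strips of triangles -/
theorem strip (u w : ℕ → Vx σ) (n : ℕ) (h0 : u 0 = w 0) (h1 : ∀ i, Nr σ (u i) (w i))
    (h2 : ∀ i, Nr σ (w i) (u (i + 1))) (h3 : ∀ i, Nr σ (u i) (u (i + 1)))
    (h4 : ∀ i, Nr σ (w i) (w (i + 1))) :
    Hmt (bt σ) (u 0) (lp σ u n ++ lz σ (u n) (w n)) (lp σ w n) := by
  induction n with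
  | zero =>
    rw [lp, lp, ← h0, lz_self]
    exact Hmt.refl _ _
  | succ n ih =>
    have e1 : endp (u 0) (lp σ u n) = u n := lp_endp σ u n
    have e2 : endp (u 0) (lp σ u n ++ lz σ (u n) (w n)) = w n := by
      rw [endp_append, e1, lz_endp]
    have g1 : Hmt (bt σ) (u 0)
        (lp σ u n ++ (lz σ (u n) (w n) ++ lz σ (w n) (u (n + 1))) ++ lz σ (u (n + 1)) (w (n + 1)))
        (lp σ u n ++ lz σ (u n) (u (n + 1)) ++ lz σ (u (n + 1)) (w (n + 1))) := by
      refine Hmt.append_right ?_ _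
      refine Hmt.append_left _ ?_
      rw [e1]
      exact tri_hmt (h1 n) (h2 n) (h3 n)
    have g2 : Hmt (bt σ) (u 0)
        ((lp σ u n ++ lz σ (u n) (w n)) ++ (lz σ (w n) (u (n + 1)) ++ lz σ (u (n + 1)) (w (n + 1))))
        ((lp σ u n ++ lz σ (u n) (w n)) ++ lz σ (w n) (w (n + 1))) := by
      refine Hmt.append_left _ ?_
      rw [e2]
      exact tri_hmt (h2 n) (h1 (n + 1)) (h4 n)
    have g3 := ih.append_right (lz σ (w n) (w (n + 1)))
    rw [lp, lp]
    have e3 : lp σ u n ++ (lz σ (u n) (w n) ++ lz σ (w n) (u (n + 1))) ++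
        lz σ (u (n + 1)) (w (n + 1)) = (lp σ u n ++ lz σ (u n) (w n)) ++
        (lz σ (w n) (u (n + 1)) ++ lz σ (u (n + 1)) (w (n + 1))) := by
      simp only [List.append_assoc]
    rw [e3] at g1
    exact (g1.symm.trans g2).trans g3

end lazy

section conn

variable {A : Type} [SemilatticeSup A] {σ : A ≃o A}

/-- the sequence `l ⊔ σ ^ (N - i) m` -/
def sq (σ : A ≃o A) (m l : A) (N : ℤ) (i : ℕ) : Vx σ := cl σ (l ⊔ (σ ^ (N - i)) m)

/-- the path of the sequence -/
noncomputable def pth (σ : A ≃o A) (m l : A) (N : ℤ) (K : ℕ) : List (Vx σ) := lp σ (sq σ m l N) K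

variable (hσ : IsShift σ)

include hσ

theorem nr_self (p : Vx σ) : Nr σ p p := by
  obtain ⟨x, rfl⟩ := cl_surj σ p
  exact ⟨x, x, rfl, rfl, le_rfl, (hσ.lt x).le⟩

theorem nr_of {x y : A} (h1 : x ≤ y) (h2 : y ≤ σ x) : Nr σ (cl σ x) (cl σ y) :=
  ⟨x, y, rfl, rfl, h1, h2⟩

theorem step_eq (m : A) (N : ℤ) (i : ℕ) : σ ((σ ^ (N - (i + 1 : ℕ))) m) = (σ ^ (N - i)) m := by
  rw [← zone (σ := σ) ((σ ^ (N - (i + 1 : ℕ))) m), ← zadd]
  congr 2
  push_cast
  ring

theorem step_le (m : A) (N : ℤ) (i : ℕ) : (σ ^ (N - (i + 1 : ℕ))) m ≤ (σ ^ (N - i)) m :=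
  shift_le_shift hσ (by push_cast; omega) m

theorem sq_nr (m l : A) (N : ℤ) (i : ℕ) : Nr σ (sq σ m l N i) (sq σ m l N (i + 1)) := by
  apply nr_symm
  refine nr_of hσ (sup_le_sup_left (step_le hσ m N i) l) ?_
  rw [OrderIso.map_sup, step_eq hσ]
  exact sup_le_sup_right (hσ.lt l).le _

theorem sq_add (m l : A) (N : ℤ) (j i : ℕ) : sq σ m l (N + j) (i + j) = sq σ m l N i := by
  unfold sq
  congr 4
  push_cast
  ring

/-- independence of the number of steps at the beginning -/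
theorem pth_left {m l : A} {N : ℤ} (h : l ≤ (σ ^ N) m) (K j : ℕ) :
    pth σ m l (N + j) (K + j) = pth σ m l N K := by
  induction j with
  | zero =>
    rw [Nat.cast_zero, add_zero, Nat.add_zero]
  | succ j ih =>
    rw [← ih]
    unfold pth
    rw [← Nat.add_assoc, lp_succ']
    have e1 : sq σ m l (N + (j + 1 : ℕ)) 0 = sq σ m l (N + (j + 1 : ℕ)) 1 := by
      unfold sq
      have g : ∀ k : ℤ, N ≤ k → l ⊔ (σ ^ k) m = (σ ^ k) m := fun k hk =>
        sup_eq_right.2 (h.trans (shift_le_shift hσ hk m))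
      rw [g _ (by push_cast; omega), g _ (by push_cast; omega), cl_shift, cl_shift]
    rw [e1, lz_self, List.nil_append]
    congr 1
    funext i
    have := sq_add hσ m l (N + j) 1 i
    rw [← this]
    congr 1
    push_cast
    ring

/-- independence of the number of steps at the end -/
theorem pth_right {m l : A} {N : ℤ} {K : ℕ} (h : (σ ^ (N - K)) m ≤ l) (j : ℕ) :
    pth σ m l N (K + j) = pth σ m l N K := by
  induction j with
  | zero => rw [Nat.add_zero]
  | succ j ih =>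
    rw [← ih]
    unfold pth
    rw [← Nat.add_assoc, lp]
    have e1 : sq σ m l N (K + j) = sq σ m l N (K + j + 1) := by
      unfold sq
      have g : ∀ k : ℤ, k ≤ N - K → l ⊔ (σ ^ k) m = l := fun k hk =>
        sup_eq_left.2 ((shift_le_shift hσ hk m).trans h)
      rw [g _ (by push_cast; omega), g _ (by push_cast; omega)]
    rw [← e1, lz_self, List.append_nil]

/-- independence of the representative -/
theorem pth_shift (m l : A) (N : ℤ) (K : ℕ) (k : ℤ) :
    pth σ m ((σ ^ k) l) (N + k) K = pth σ m l N K := by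
  unfold pth
  congr 1
  funext i
  unfold sq
  have e : N + k - i = k + (N - i) := by ring
  rw [e, zadd, ← OrderIso.map_sup, cl_shift]

/-- `L` is a path given by a representative and large numbers -/
def Good (σ : A ≃o A) (m : A) (q : Vx σ) (L : List (Vx σ)) : Prop :=
  ∃ (l : A) (N : ℤ) (K : ℕ), cl σ l = q ∧ l ≤ (σ ^ N) m ∧ (σ ^ (N - K)) m ≤ l ∧ L = pth σ m l N K

theorem good_exists (m : A) (q : Vx σ) : ∃ L, Good σ m q L := by
  obtain ⟨l, rfl⟩ := cl_surj σ q
  obtain ⟨k1, h1⟩ := cofinal_z hσ l m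
  obtain ⟨k2, h2⟩ := cofinal_z hσ m l
  refine ⟨pth σ m l k1 (k1 + k2).toNat, l, k1, (k1 + k2).toNat, rfl, h1 k1 le_rfl, ?_, rfl⟩
  have h3 : k1 - ((k1 + k2).toNat : ℤ) ≤ -k2 := by
    have := Int.self_le_toNat (k1 + k2)
    omega
  refine (shift_le_shift hσ h3 m).trans ?_
  have h4 := zmono (σ := σ) (-k2) (h2 k2 le_rfl)
  rwa [zneg'] at h4

theorem good_pth {m l : A} {N : ℤ} {K : ℕ} (h1 : l ≤ (σ ^ N) m) (h2 : (σ ^ (N - K)) m ≤ l)
    {L : List (Vx σ)} (h : Good σ m (cl σ l) L) : L = pth σ m l N K := by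
  obtain ⟨l', N', K', e, h1', h2', rfl⟩ := h
  obtain ⟨k, rfl⟩ := (cl_eq σ).1 e
  -- first replace `l' ` by `σ ^ k l'`
  rw [← pth_shift hσ m l' N' K' k]
  have g1 : (σ ^ k) l' ≤ (σ ^ (N' + k)) m := by
    rw [add_comm, zadd]
    exact zmono k h1'
  have g2 : (σ ^ (N' + k - K')) m ≤ (σ ^ k) l' := by
    have e1 : N' + k - K' = k + (N' - K') := by ring
    rw [e1, zadd]
    exact zmono k h2'
  generalize hl : (σ ^ k) l' = l at *
  generalize hN : N' + k = M at *
  -- a common bound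
  have key : ∀ (N M : ℤ) (K K' : ℕ), N ≤ M → l ≤ (σ ^ N) m → (σ ^ (N - K)) m ≤ l →
      (σ ^ (M - K')) m ≤ l → pth σ m l M K' = pth σ m l N K := by
    intro N M K K' hNM h1 h2 h3
    obtain ⟨j, hj⟩ := Int.eq_ofNat_of_zero_le (sub_nonneg.2 hNM)
    have hM : M = N + j := by omega
    subst hM
    rw [← pth_left hσ h1 K j]
    have h4 : (σ ^ (N + j - ((K + j : ℕ) : ℤ))) m ≤ l := by
      have e2 : N + j - ((K + j : ℕ) : ℤ) = N - K := by push_cast; ring
      rw [e2]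
      exact h2
    rcases le_total K' (K + j) with h5 | h5
    · obtain ⟨i, hi⟩ := Nat.exists_eq_add_of_le h5
      rw [hi]
      exact (pth_right hσ h3 i).symm
    · obtain ⟨i, hi⟩ := Nat.exists_eq_add_of_le h5
      rw [hi]
      exact pth_right hσ h4 i
  rcases le_total N M with h3 | h3
  · exact key N M K K' h3 h1 h2 g2
  · exact (key M N K' K h3 g1 g2 h2).symm

theorem bt_can (m : A) : ∃ can, Can (bt σ) (cl σ m) can := by
  choose can hcan using good_exists hσ m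
  have hrep : ∀ l : A, ∃ (N : ℤ) (K : ℕ), l ≤ (σ ^ N) m ∧ (σ ^ (N - K)) m ≤ l ∧
      can (cl σ l) = pth σ m l N K := by
    intro l
    obtain ⟨k1, h1⟩ := cofinal_z hσ l m
    obtain ⟨k2, h2⟩ := cofinal_z hσ m l
    have h3 : (σ ^ (k1 - ((k1 + k2).toNat : ℤ))) m ≤ l := by
      have h3 : k1 - ((k1 + k2).toNat : ℤ) ≤ -k2 := by
        have := Int.self_le_toNat (k1 + k2)
        omega
      refine (shift_le_shift hσ h3 m).trans ?_
      have h4 := zmono (σ := σ) (-k2) (h2 k2 le_rfl)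
      rwa [zneg'] at h4
    exact ⟨k1, (k1 + k2).toNat, h1 k1 le_rfl, h3,
      good_pth hσ (h1 k1 le_rfl) h3 (hcan _)⟩
  have hend : ∀ {l : A} {N : ℤ} {K : ℕ}, l ≤ (σ ^ N) m → (σ ^ (N - K)) m ≤ l →
      sq σ m l N 0 = cl σ m ∧ sq σ m l N K = cl σ l := by
    intro l N K h1 h2
    constructor
    · unfold sq
      rw [Nat.cast_zero, sub_zero, sup_eq_right.2 h1, cl_shift]
    · unfold sq
      rw [sup_eq_left.2 h2]
  refine ⟨can, ?_, ?_, ?_⟩
  · have h := good_pth hσ (m := m) (l := m) (N := 0) (K := 0) (by rw [zzero])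
      (by rw [Nat.cast_zero, sub_zero, zzero]) (hcan _)
    rw [h]
    rfl
  · intro q
    obtain ⟨l, rfl⟩ := cl_surj σ q
    obtain ⟨N, K, h1, h2, h3⟩ := hrep l
    obtain ⟨e1, e2⟩ := hend h1 h2
    rw [h3, ← e1]
    exact ⟨lp_isP σ _ _ (sq_nr hσ m l N), by rw [pth, lp_endp, e2]⟩
  · intro q q' hq
    obtain ⟨hne, l, l', rfl, rfl, h1, h2⟩ := hq
    obtain ⟨k1, g1⟩ := cofinal_z hσ l' m
    obtain ⟨k2, g2⟩ := cofinal_z hσ m l
    set N := k1
    set K := (k1 + k2).toNat with hK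
    have h3 : (σ ^ (N - (K : ℤ))) m ≤ l := by
      have h3 : N - (K : ℤ) ≤ -k2 := by
        have := Int.self_le_toNat (k1 + k2)
        omega
      refine (shift_le_shift hσ h3 m).trans ?_
      have h4 := zmono (σ := σ) (-k2) (g2 k2 le_rfl)
      rwa [zneg'] at h4
    have h4 : l' ≤ (σ ^ N) m := g1 k1 le_rfl
    rw [good_pth hσ (h1.trans h4) h3 (hcan _), good_pth hσ h4 (h3.trans h1) (hcan _)]
    obtain ⟨e1, e2⟩ := hend (h1.trans h4) h3
    obtain ⟨e3, e4⟩ := hend h4 (h3.trans h1)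
    have h5 := strip (sq σ m l N) (sq σ m l' N) K (e1.trans e3.symm) ?_ ?_ (sq_nr hσ m l N)
      (sq_nr hσ m l' N)
    · rw [e1, e2, e4, lz_ne σ hne] at h5
      exact h5
    · intro i
      refine nr_of hσ (sup_le_sup_right h1 _) ?_
      rw [OrderIso.map_sup]
      exact sup_le_sup h2 (hσ.lt _).le
    · intro i
      apply nr_symm
      refine nr_of hσ (sup_le_sup h1 (step_le hσ m N i)) ?_
      rw [OrderIso.map_sup, step_eq hσ]
      exact sup_le_sup_right h2 _

theorem bt_simplyConnected [Nonempty A] : SimplyConnected (bt σ) := by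
  have : Nonempty (Vx σ) := ⟨cl σ (Classical.arbitrary A)⟩
  refine simplyConnected_of_can _ fun p => ?_
  obtain ⟨m, rfl⟩ := cl_surj σ p
  exact bt_can hσ m

end conn

end Pool.Agent.K9h35.TB
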