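import Pool.Agent.K9h35.TB.Act

/-!
# Lattices in a space of dimension three over a division ring with a discrete valuation
-/

set_option autoImplicit false
set_option linter.unusedSectionVars false

namespace Pool.Agent.K9h35.TB

open WithZero
open Matrix hiding exp_neg exp_zsmul
open Pool.Agent.Y462.SS (Closed)

variable {D : Type} [DivisionRing D] (v : Valuation D ℤᵐ⁰)

/-- Lattices: additive subgroups of `D ^ 3` which are closed under the multiplication by the elements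
of the valuation ring, contain a ball and are contained in a ball. -/
structure IsLat (L : AddSubgroup (Fin 3 → D)) : Prop where
  smul : ∀ r : D, v r ≤ 1 → ∀ x ∈ L, r • x ∈ L
  lower : ∃ a : ℤ, ∀ x : Fin 3 → D, (∀ i, v (x i) ≤ exp a) → x ∈ L
  upper : ∃ b : ℤ, ∀ x ∈ L, ∀ i, v (x i) ≤ exp b

/-- the ordered set of the lattices -/
def Lt : Type := {L : AddSubgroup (Fin 3 → D) // IsLat v L}

instance : SemilatticeSup (Lt v) := Subtype.semilatticeSup (by
  rintro L M ⟨h1, ⟨a, h2⟩, b, h3⟩ ⟨h1', ⟨a', h2'⟩, b', h3'⟩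
  refine ⟨?_, ⟨a, fun x hx => ?_⟩, max b b', ?_⟩
  · intro r hr x hx
    obtain ⟨y, hy, z, hz, rfl⟩ := AddSubgroup.mem_sup.1 hx
    rw [smul_add]
    exact AddSubgroup.add_mem_sup (h1 r hr y hy) (h1' r hr z hz)
  · exact (le_sup_left : L ≤ L ⊔ M) (h2 x hx)
  · intro x hx i
    obtain ⟨y, hy, z, hz, rfl⟩ := AddSubgroup.mem_sup.1 hx
    refine (v.map_add _ _).trans (max_le ?_ ?_)
    · exact (h3 y hy i).trans (exp_le_exp.2 (le_max_left _ _))
    · exact (h3' z hz i).trans (exp_le_exp.2 (le_max_right _ _)))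

theorem lt_le {L M : Lt v} : L ≤ M ↔ ∀ x ∈ L.1, x ∈ M.1 := Iff.rfl

instance : Nonempty (Lt v) := by
  refine ⟨⟨{ carrier := {x | ∀ i, v (x i) ≤ 1}
             zero_mem' := fun i => by simp
             add_mem' := fun {x y} hx hy i => (v.map_add _ _).trans (max_le (hx i) (hy i))
             neg_mem' := fun {x} hx i => by
              rw [Pi.neg_apply, Valuation.map_neg]
              exact hx i }, ?_, ⟨0, fun x hx i => ?_⟩, 0, fun x hx i => ?_⟩⟩
  · intro r hr x hx i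
    change v (r * x i) ≤ 1
    rw [map_mul]
    exact mul_le_one' hr (hx i)
  · simpa using hx i
  · simpa using hx i

theorem exp_surj {x : ℤᵐ⁰} (h : x ≠ 0) : ∃ k : ℤ, x = exp k := ⟨log x, (exp_log h).symm⟩

/-- division by a scalar -/
def dil (d : D) (L : AddSubgroup (Fin 3 → D)) : AddSubgroup (Fin 3 → D) :=
  L.comap (DistribSMul.toAddMonoidHom (Fin 3 → D) d)

theorem mem_dil {d : D} {L : AddSubgroup (Fin 3 → D)} {x : Fin 3 → D} : x ∈ dil d L ↔ d • x ∈ L :=
  Iff.rfl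

variable {v}

theorem isLat_dil {d : D} (hd : d ≠ 0) {L : AddSubgroup (Fin 3 → D)} (hL : IsLat v L) :
    IsLat v (dil d L) := by
  obtain ⟨k, hk⟩ := exp_surj ((Valuation.ne_zero_iff v).2 hd)
  obtain ⟨h1, ⟨a, h2⟩, b, h3⟩ := hL
  refine ⟨?_, ⟨a - k, ?_⟩, b - k, ?_⟩
  · intro r hr x hx
    rw [mem_dil] at hx ⊢
    have e : d • r • x = (d * r * d⁻¹) • d • x := by
      rw [smul_smul, smul_smul, mul_assoc, inv_mul_cancel₀ hd, mul_one]
    rw [e]
    refine h1 _ ?_ _ hx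
    rw [map_mul, map_mul, map_inv₀, mul_comm (v d), mul_assoc,
      mul_inv_cancel₀ ((Valuation.ne_zero_iff v).2 hd), mul_one]
    exact hr
  · intro x hx
    rw [mem_dil]
    refine h2 _ fun i => ?_
    change v (d * x i) ≤ _
    rw [map_mul, hk]
    calc exp k * v (x i) ≤ exp k * exp (a - k) := mul_le_mul_right (hx i) _
      _ = exp a := by rw [← exp_add]; congr 1; ring
  · intro x hx i
    have h4 := h3 _ (mem_dil.1 hx) i
    change v (d * x i) ≤ _ at h4
    rw [map_mul, hk] at h4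
    have h5 : exp (-k) * (exp k * v (x i)) ≤ exp (-k) * exp b := mul_le_mul_right h4 _
    rw [← mul_assoc, ← exp_add, ← exp_add, neg_add_cancel, exp_zero, one_mul] at h5
    refine h5.trans (exp_le_exp.2 (by omega))

/-- the shift -/
def shf {π : D} (hπ0 : π ≠ 0) : Lt v ≃o Lt v where
  toFun L := ⟨dil π L.1, isLat_dil hπ0 L.2⟩
  invFun L := ⟨dil π⁻¹ L.1, isLat_dil (inv_ne_zero hπ0) L.2⟩
  left_inv L := by
    apply Subtype.ext
    ext x
    change π • π⁻¹ • x ∈ L.1 ↔ x ∈ L.1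
    rw [smul_smul, mul_inv_cancel₀ hπ0, one_smul]
  right_inv L := by
    apply Subtype.ext
    ext x
    change π⁻¹ • π • x ∈ L.1 ↔ x ∈ L.1
    rw [smul_smul, inv_mul_cancel₀ hπ0, one_smul]
  map_rel_iff' := by
    intro L M
    change (∀ x, π • x ∈ L.1 → π • x ∈ M.1) ↔ ∀ x ∈ L.1, x ∈ M.1
    constructor
    · intro h x hx
      have h1 := h (π⁻¹ • x)
      rw [smul_smul, mul_inv_cancel₀ hπ0, one_smul] at h1
      exact h1 hx
    · intro h x hx
      exact h _ hx

theorem mem_shf {π : D} (hπ0 : π ≠ 0) (L : Lt v) (x : Fin 3 → D) :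
    x ∈ (shf (v := v) hπ0 L).1 ↔ π • x ∈ L.1 := Iff.rfl

theorem mem_zshf {π : D} (hπ0 : π ≠ 0) (k : ℤ) (L : Lt v) (x : Fin 3 → D) :
    x ∈ ((shf (v := v) hπ0 ^ k) L).1 ↔ π ^ k • x ∈ L.1 := by
  have hpos : ∀ (n : ℕ) (L : Lt v) (x : Fin 3 → D),
      x ∈ ((shf (v := v) hπ0 ^ (n : ℤ)) L).1 ↔ π ^ (n : ℤ) • x ∈ L.1 := by
    intro n
    induction n with
    | zero =>
      intro L x
      rw [Nat.cast_zero, zzero, zpow_zero, one_smul]
    | succ n ih =>
      intro L x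
      rw [Nat.cast_succ, zadd, zone, ih, mem_shf, smul_smul, ← zpow_one_add₀ hπ0, add_comm]
  rcases le_total 0 k with h | h
  · obtain ⟨n, rfl⟩ := Int.eq_ofNat_of_zero_le h
    exact hpos n L x
  · obtain ⟨n, hn⟩ := Int.eq_ofNat_of_zero_le (neg_nonneg.2 h)
    have hk : k = -(n : ℤ) := by omega
    subst hk
    have h1 := hpos n ((shf (v := v) hπ0 ^ (-(n : ℤ))) L) (π ^ (-(n : ℤ)) • x)
    rw [zneg, smul_smul, ← zpow_add₀ hπ0, add_neg_cancel, zpow_zero, one_smul] at h1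
    exact h1.symm

/-- four vectors in a space of dimension three -/
theorem dep (x : Fin 4 → Fin 3 → D) : ∃ c : Fin 4 → D, ∑ i, c i • x i = 0 ∧ (∀ i, v (c i) ≤ 1) ∧
    ∃ i, v (c i) = 1 := by
  classical
  have h1 : ¬ LinearIndependent D x := by
    intro h
    have h2 := h.fintype_card_le_finrank
    rw [Module.finrank_fin_fun, Fintype.card_fin] at h2
    omega
  obtain ⟨g, hg, i0, hi0⟩ := Fintype.not_linearIndependent_iff.1 h1
  obtain ⟨m, -, hm⟩ := Finset.exists_max_image Finset.univ (fun i => v (g i)) Finset.univ_nonempty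
  have hm0 : g m ≠ 0 := by
    intro h
    have h2 := hm i0 (Finset.mem_univ _)
    rw [h, map_zero] at h2
    exact hi0 ((Valuation.zero_iff v).1 (le_antisymm h2 zero_le))
  have hvm : v (g m) ≠ 0 := (Valuation.ne_zero_iff v).2 hm0
  refine ⟨fun i => (g m)⁻¹ * g i, ?_, fun i => ?_, m, ?_⟩
  · have h2 : ∑ i, ((g m)⁻¹ * g i) • x i = (g m)⁻¹ • ∑ i, g i • x i := by
      rw [Finset.smul_sum]
      refine Finset.sum_congr rfl fun i _ => ?_
      rw [smul_smul]
    rw [h2, hg, smul_zero]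
  · rw [map_mul, map_inv₀]
    calc (v (g m))⁻¹ * v (g i) ≤ (v (g m))⁻¹ * v (g m) :=
          mul_le_mul_right (hm i (Finset.mem_univ _)) _
      _ = 1 := inv_mul_cancel₀ hvm
  · change v ((g m)⁻¹ * g m) = 1
    rw [inv_mul_cancel₀ hm0, map_one]

theorem lt_one_iff {x : ℤᵐ⁰} : x < 1 ↔ x ≤ exp (-1) := by
  constructor
  · intro h
    by_cases h0 : x = 0
    · rw [h0]
      exact zero_le
    · obtain ⟨k, rfl⟩ := exp_surj h0
      rw [← exp_zero] at h
      have := exp_lt_exp.1 h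
      exact exp_le_exp.2 (by omega)
  · intro h
    refine lt_of_le_of_lt h ?_
    rw [← exp_zero]
    exact exp_lt_exp.2 (by omega)

theorem isShift_shf {π : D} (hπ : v π = exp (-1)) (hπ0 : π ≠ 0) :
    IsShift (shf (v := v) hπ0) := by
  classical
  have hle : ∀ L : Lt v, L ≤ shf (v := v) hπ0 L := by
    intro L x hx
    rw [mem_shf]
    refine L.2.smul π ?_ x hx
    rw [hπ, ← exp_zero]
    exact exp_le_exp.2 (by omega)
  have hpow : ∀ k : ℤ, v (π ^ k) = exp (-k) := by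
    intro k
    rw [map_zpow₀, hπ, ← exp_zsmul]
    congr 1
    rw [smul_eq_mul]
    ring
  have hcof : ∀ L M : Lt v, ∃ n : ℕ, L ≤ (shf (v := v) hπ0 ^ (n : ℤ)) M := by
    intro L M
    obtain ⟨b, hb⟩ := L.2.upper
    obtain ⟨a, ha⟩ := M.2.lower
    refine ⟨(b - a).toNat, fun x hx => ?_⟩
    rw [mem_zshf]
    refine ha _ fun i => ?_
    change v (π ^ ((b - a).toNat : ℤ) * x i) ≤ _
    rw [map_mul, hpow]
    calc exp (-((b - a).toNat : ℤ)) * v (x i) ≤ exp (-((b - a).toNat : ℤ)) * exp b :=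
          mul_le_mul_right (hb x hx i) _
      _ ≤ exp a := by
          rw [← exp_add]
          have := Int.self_le_toNat (b - a)
          exact exp_le_exp.2 (by omega)
  have hne : ∀ L : Lt v, shf (v := v) hπ0 L ≠ L := by
    intro L h
    have h1 : ∀ n : ℕ, (shf (v := v) hπ0 ^ (n : ℤ)) L = L := by
      intro n
      induction n with
      | zero => rw [Nat.cast_zero, zzero]
      | succ n ih => rw [Nat.cast_succ, zadd, zone, h, ih]
    obtain ⟨b, hb⟩ := L.2.upper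
    obtain ⟨a, ha⟩ := L.2.lower
    have h2 := h1 (b + 1 - a).toNat
    have h3 : (fun _ => π ^ (-(b + 1)) : Fin 3 → D) ∈ L.1 := by
      rw [← h2, mem_zshf]
      refine ha _ fun i => ?_
      change v (π ^ ((b + 1 - a).toNat : ℤ) * π ^ (-(b + 1))) ≤ _
      rw [← zpow_add₀ hπ0, hpow]
      have := Int.self_le_toNat (b + 1 - a)
      exact exp_le_exp.2 (by omega)
    have h4 := hb _ h3 0
    rw [hpow] at h4
    have h5 := exp_le_exp.1 h4
    omega
  refine ⟨fun L => lt_of_le_of_ne (hle L) (hne L).symm, ?_, ?_⟩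
  · intro L M
    obtain ⟨n, hn⟩ := hcof L M
    refine ⟨n, ?_⟩
    rwa [zpow_natCast] at hn
  · intro L M1 M2 M3 h1 h2 h3 h4
    have hex : ∀ {P Q : Lt v}, P < Q → ∃ x, x ∈ Q.1 ∧ x ∉ P.1 := by
      intro P Q h
      by_contra hcon
      push Not at hcon
      exact absurd (show Q ≤ P from fun x hx => hcon x hx) (not_le_of_gt h)
    obtain ⟨x1, g1, g1'⟩ := hex h1
    obtain ⟨x2, g2, g2'⟩ := hex h2
    obtain ⟨x3, g3, g3'⟩ := hex h3
    obtain ⟨x4, g4, g4'⟩ := hex h4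
    obtain ⟨c, hc, hc1, i0, hi0⟩ := dep (v := v) ![x1, x2, x3, x4]
    simp only [Fin.sum_univ_four, Matrix.cons_val_zero, Matrix.cons_val_one,
      Matrix.cons_val] at hc
    -- multiples of elements of `σ L` by non-units are in `L`
    have hsm : ∀ (d : D) (x : Fin 3 → D), v d ≠ 1 → v d ≤ 1 → x ∈ (shf (v := v) hπ0 L).1 →
        d • x ∈ L.1 := by
      intro d x hd1 hd2 hx
      rw [mem_shf] at hx
      have e : d • x = (d * π⁻¹) • π • x := by
        rw [smul_smul, mul_assoc, inv_mul_cancel₀ hπ0, mul_one]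
      rw [e]
      refine L.2.smul _ ?_ _ hx
      rw [map_mul, map_inv₀, hπ]
      have h5 : v d ≤ exp (-1) := lt_one_iff.1 (lt_of_le_of_ne hd2 hd1)
      calc v d * (exp (-1 : ℤ))⁻¹ ≤ exp (-1) * (exp (-1 : ℤ))⁻¹ := mul_le_mul_left h5 _
        _ = 1 := mul_inv_cancel₀ exp_ne_zero
    have hLM1 : ∀ x ∈ L.1, x ∈ M1.1 := h1.le
    have hM12 : ∀ x ∈ M1.1, x ∈ M2.1 := h2.le
    have hM23 : ∀ x ∈ M2.1, x ∈ M3.1 := h3.le
    have hM3 : ∀ x ∈ M3.1, x ∈ (shf (v := v) hπ0 L).1 := h4.le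
    -- if the coefficient of `x` is a unit then `x` is in each lattice which contains the rest
    have hun : ∀ (N : Lt v) (d : D) (x y : Fin 3 → D), v d = 1 → d • x + y = 0 → y ∈ N.1 →
        x ∈ N.1 := by
      intro N d x y hd hxy hy
      have hd0 : d ≠ 0 := by
        rintro rfl
        rw [map_zero] at hd
        exact absurd hd zero_ne_one
      have e : x = d⁻¹ • (-y) := by
        rw [← eq_neg_of_add_eq_zero_left hxy, smul_smul, inv_mul_cancel₀ hd0, one_smul]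
      rw [e]
      refine N.2.smul _ ?_ _ (N.1.neg_mem hy)
      rw [map_inv₀, hd, inv_one]
    by_cases k4 : v (c 3) = 1
    · refine g4' (hun M3 (c 3) x4 (c 0 • x1 + c 1 • x2 + c 2 • x3) k4 ?_ ?_)
      · rw [← hc]; abel
      · refine M3.1.add_mem (M3.1.add_mem ?_ ?_) ?_
        · exact M3.2.smul _ (hc1 0) _ (hM23 _ (hM12 _ g1))
        · exact M3.2.smul _ (hc1 1) _ (hM23 _ g2)
        · exact M3.2.smul _ (hc1 2) _ g3
    have j4 : c 3 • x4 ∈ L.1 := hsm _ _ k4 (hc1 3) g4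
    by_cases k3 : v (c 2) = 1
    · refine g3' (hun M2 (c 2) x3 (c 0 • x1 + c 1 • x2 + c 3 • x4) k3 ?_ ?_)
      · rw [← hc]; abel
      · refine M2.1.add_mem (M2.1.add_mem ?_ ?_) ?_
        · exact M2.2.smul _ (hc1 0) _ (hM12 _ g1)
        · exact M2.2.smul _ (hc1 1) _ g2
        · exact hM12 _ (hLM1 _ j4)
    have j3 : c 2 • x3 ∈ L.1 := hsm _ _ k3 (hc1 2) (hM3 _ g3)
    by_cases k2 : v (c 1) = 1
    · refine g2' (hun M1 (c 1) x2 (c 0 • x1 + c 2 • x3 + c 3 • x4) k2 ?_ ?_)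
      · rw [← hc]; abel
      · refine M1.1.add_mem (M1.1.add_mem ?_ ?_) ?_
        · exact M1.2.smul _ (hc1 0) _ g1
        · exact hLM1 _ j3
        · exact hLM1 _ j4
    have j2 : c 1 • x2 ∈ L.1 := hsm _ _ k2 (hc1 1) (hM3 _ (hM23 _ g2))
    by_cases k1 : v (c 0) = 1
    · refine g1' (hun L (c 0) x1 (c 1 • x2 + c 2 • x3 + c 3 • x4) k1 ?_ ?_)
      · rw [← hc]; abel
      · exact L.1.add_mem (L.1.add_mem j2 j3) j4
    fin_cases i0
    · exact k1 hi0
    · exact k2 hi0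
    · exact k3 hi0
    · exact k4 hi0

end Pool.Agent.K9h35.TB
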