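import Pool.Agent.K9h35.TB.Div
import Pool.Agent.K9h35.SQ.Ring2
import Pool.Agent.K9h35.GL.Poly

/-!
# Groups of matrices of degree three
-/

set_option autoImplicit false
set_option linter.unusedSectionVars false

namespace Pool.Agent.K9h35.TB

open WithZero
open Matrix hiding exp_neg exp_zsmul
open Pool.Agent.Y462.SS (Closed)
open Pool.Agent.K9h35.SQ (IsFiniteAtInfinity)

variable {D : Type} [DivisionRing D] {v : Valuation D ℤᵐ⁰}

/-- the size of the product of a vector and a matrix -/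
theorem v_vecMul {a m : ℤ} {x : Fin 3 → D} {M : Matrix (Fin 3) (Fin 3) D}
    (hx : ∀ i, v (x i) ≤ exp a) (hM : ∀ i j, v (M i j) ≤ exp m) (j : Fin 3) :
    v ((x ᵥ* M) j) ≤ exp (a + m) := by
  change v (∑ i, x i * M i j) ≤ _
  refine v.map_sum_le fun i _ => ?_
  rw [map_mul, exp_add]
  exact mul_le_mul' (hx i) (hM i j)

theorem exists_bound (M : Matrix (Fin 3) (Fin 3) D) : ∃ m : ℤ, ∀ i j, v (M i j) ≤ exp m := by
  classical
  have h1 : ∀ x : ℤᵐ⁰, ∃ m : ℤ, x ≤ exp m := by
    intro x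
    by_cases h : x = 0
    · exact ⟨0, by rw [h]; exact zero_le⟩
    · obtain ⟨k, hk⟩ := exp_surj h
      exact ⟨k, hk.le⟩
  choose f hf using fun p : Fin 3 × Fin 3 => h1 (v (M p.1 p.2))
  refine ⟨Finset.univ.sup' Finset.univ_nonempty f, fun i j => ?_⟩
  exact (hf (i, j)).trans (exp_le_exp.2 (Finset.le_sup' f (Finset.mem_univ (i, j))))

/-- the right multiplication of row vectors by a matrix -/
def rmul (M : Matrix (Fin 3) (Fin 3) D) : (Fin 3 → D) →+ (Fin 3 → D) where
  toFun x := x ᵥ* M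
  map_zero' := Matrix.zero_vecMul M
  map_add' x y := Matrix.add_vecMul M x y

/-- the action on lattices -/
def mact (g : (Matrix (Fin 3) (Fin 3) D)ˣ) (L : Lt v) : Lt v :=
  ⟨L.1.comap (rmul g.1), by
    obtain ⟨h1, ⟨a, h2⟩, b, h3⟩ := L.2
    obtain ⟨m, hm⟩ := exists_bound (v := v) g.1
    obtain ⟨m', hm'⟩ := exists_bound (v := v) g⁻¹.1
    refine ⟨?_, ⟨a - m, ?_⟩, b + m', ?_⟩
    · intro r hr x hx
      change (r • x) ᵥ* g.1 ∈ L.1
      rw [Matrix.smul_vecMul]
      exact h1 r hr _ hx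
    · intro x hx
      change x ᵥ* g.1 ∈ L.1
      refine h2 _ fun j => ?_
      have h4 := v_vecMul hx hm j
      rwa [sub_add_cancel] at h4
    · intro x hx i
      have h4 := h3 _ hx
      have h5 := v_vecMul h4 hm' i
      have e : (rmul g.1 x) ᵥ* g⁻¹.1 = x := by
        change (x ᵥ* g.1) ᵥ* g⁻¹.1 = x
        rw [Matrix.vecMul_vecMul, g.mul_inv, Matrix.vecMul_one]
      rwa [e] at h5⟩

theorem mem_mact (g : (Matrix (Fin 3) (Fin 3) D)ˣ) (L : Lt v) (x : Fin 3 → D) :
    x ∈ (mact g L).1 ↔ x ᵥ* g.1 ∈ L.1 := Iff.rfl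

theorem lt_ext {L M : Lt v} (h : ∀ x, x ∈ L.1 ↔ x ∈ M.1) : L = M :=
  Subtype.ext (AddSubgroup.ext h)

/-- **Groups of matrices.** Let `v` be a discrete valuation of the division ring `D` and `ρ` a
homomorphism from `Γ` to `GL_3(D)` such that each matrix `ρ γ` has an entry of value at least one, and
for each `c` there are only finitely many `γ` such that all entries of `ρ γ` have values at most
`exp c`. -/
theorem mat_main {C : ∀ (G : Type) [Group G], Prop} (hC : Closed C) (htri : HasCAT0Triangle C)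
    (v : Valuation D ℤᵐ⁰) (π : D) (hπ : v π = exp (-1)) (Γ : Type) [Group Γ]
    (ρ : Γ →* (Matrix (Fin 3) (Fin 3) D)ˣ)
    (h1 : ∀ γ : Γ, ∃ i j, 1 ≤ v ((ρ γ : Matrix (Fin 3) (Fin 3) D) i j))
    (hfin : ∀ c : ℤ, {γ : Γ | ∀ i j, v ((ρ γ : Matrix (Fin 3) (Fin 3) D) i j) ≤ exp c}.Finite) :
    C Γ := by
  classical
  have hπ0 : π ≠ 0 := by
    rintro rfl
    rw [map_zero] at hπ
    exact exp_ne_zero hπ.symm
  letI : MulAction Γ (Lt v) :=
    { smul := fun g L => mact (ρ g) L
      one_smul := fun L => lt_ext fun x => by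
        change x ᵥ* (ρ 1).1 ∈ L.1 ↔ _
        rw [map_one, Units.val_one, Matrix.vecMul_one]
      mul_smul := fun g h L => lt_ext fun x => by
        change x ᵥ* (ρ (g * h)).1 ∈ L.1 ↔ (x ᵥ* (ρ g).1) ᵥ* (ρ h).1 ∈ L.1
        rw [map_mul, Units.val_mul, Matrix.vecMul_vecMul] }
  have hmem : ∀ (g : Γ) (L : Lt v) (x : Fin 3 → D), x ∈ (g • L).1 ↔ x ᵥ* (ρ g).1 ∈ L.1 :=
    fun g L x => Iff.rfl
  have hcomm : ∀ (g : Γ) (L : Lt v), g • shf (v := v) hπ0 L = shf (v := v) hπ0 (g • L) := by
    intro g L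
    refine lt_ext fun x => ?_
    rw [hmem, mem_shf, mem_shf, hmem, Matrix.smul_vecMul]
  have hpow : ∀ k : ℤ, v (π ^ k) = exp (-k) := by
    intro k
    rw [map_zpow₀, hπ, ← exp_zsmul]
    congr 1
    rw [smul_eq_mul]
    ring
  -- the multiplicity is zero
  have key : ∀ (g : Γ) (L : Lt v) (k : ℤ), 0 < k → g • L ≠ (shf (v := v) hπ0 ^ k) L := by
    intro g L k hk h
    obtain ⟨a, ha⟩ := L.2.lower
    obtain ⟨b, hb⟩ := L.2.upper
    have h2 : ∀ n : ℕ, (g ^ n) • L = (shf (v := v) hπ0 ^ ((n : ℤ) * k)) L := by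
      intro n
      induction n with
      | zero => rw [pow_zero, one_smul, Nat.cast_zero, zero_mul, zzero]
      | succ n ih =>
        rw [pow_succ', mul_smul, ih, smul_zpow hcomm, h, ← zadd]
        congr 2
        push_cast
        ring
    -- a large power
    set n := (b + 1 - a).toNat with hn
    have hn1 : b + 1 - a ≤ (n : ℤ) * k := by
      have h3 := Int.self_le_toNat (b + 1 - a)
      have h4 : (n : ℤ) * 1 ≤ n * k := mul_le_mul_of_nonneg_left (by omega) (Int.natCast_nonneg n)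
      omega
    obtain ⟨i, j, hij⟩ := h1 (g ^ n)
    have h3 : (Pi.single i (π ^ (-(a + (n : ℤ) * k))) : Fin 3 → D) ∈ ((g ^ n) • L).1 := by
      rw [h2, mem_zshf]
      refine ha _ fun l => ?_
      by_cases hl : l = i
      · subst hl
        change v (π ^ ((n : ℤ) * k) * (Pi.single l _ : Fin 3 → D) l) ≤ _
        rw [Pi.single_eq_same, ← zpow_add₀ hπ0, hpow]
        exact exp_le_exp.2 (by omega)
      · change v (π ^ ((n : ℤ) * k) * (Pi.single i _ : Fin 3 → D) l) ≤ _
        rw [Pi.single_eq_of_ne hl, mul_zero, map_zero]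
        exact zero_le
    rw [hmem] at h3
    have h4 := hb _ h3 j
    rw [Matrix.single_vecMul, Pi.smul_apply, smul_eq_mul, map_mul, hpow] at h4
    have h5 : exp (-(-(a + (n : ℤ) * k))) * 1 ≤ exp b := (mul_le_mul_right hij _).trans h4
    rw [mul_one] at h5
    have h6 := exp_le_exp.1 h5
    omega
  refine shift_main hC htri (isShift_shf hπ hπ0) (Γ := Γ) ?_ hcomm ?_
  · intro g L M h x hx
    rw [hmem] at hx ⊢
    exact h hx
  · intro L
    obtain ⟨a, ha⟩ := L.2.lower
    obtain ⟨b, hb⟩ := L.2.upper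
    refine (hfin (b - a)).subset ?_
    rintro g ⟨k, hk⟩ i j
    have hk0 : k = 0 := by
      rcases lt_trichotomy k 0 with h2 | h2 | h2
      · exfalso
        refine key g⁻¹ L (-k) (by omega) ?_
        have h3 : g⁻¹ • g • L = g⁻¹ • (shf (v := v) hπ0 ^ k) L := by rw [hk]
        rw [inv_smul_smul, smul_zpow hcomm] at h3
        rw [h3, zneg', ← h3]
      · exact h2
      · exact absurd hk (key g L k h2)
    subst hk0
    rw [zzero] at hk
    have h3 : (Pi.single i (π ^ (-a)) : Fin 3 → D) ∈ (g • L).1 := by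
      rw [hk]
      refine ha _ fun l => ?_
      by_cases hl : l = i
      · subst hl
        rw [Pi.single_eq_same, hpow, neg_neg]
      · rw [Pi.single_eq_of_ne hl, map_zero]
        exact zero_le
    rw [hmem] at h3
    have h4 := hb _ h3 j
    rw [Matrix.single_vecMul, Pi.smul_apply, smul_eq_mul, map_mul, hpow, neg_neg] at h4
    have h5 : exp (-a) * (exp a * v ((ρ g).1 i j)) ≤ exp (-a) * exp b := mul_le_mul_right h4 _
    rw [← mul_assoc, ← exp_add, ← exp_add, neg_add_cancel, exp_zero, one_mul] at h5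
    refine h5.trans (exp_le_exp.2 (by omega))

/-- **Rings.** `R` is a ring with a homomorphism to a division ring with a discrete valuation such that
nonzero elements have values at least one, and there are only finitely many of bounded value. -/
theorem ring_main {C : ∀ (G : Type) [Group G], Prop} (hC : Closed C) (htri : HasCAT0Triangle C)
    (v : Valuation D ℤᵐ⁰) (π : D) (hπ : v π = exp (-1)) (R : Type) [Ring R] (i : R →+* D)
    (hR : ∀ r : R, r ≠ 0 → 1 ≤ v (i r)) (hfin : ∀ c : ℤ, {r : R | v (i r) ≤ exp c}.Finite) :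
    C (Matrix (Fin 3) (Fin 3) R)ˣ := by
  classical
  have hnt : Nontrivial R := i.domain_nontrivial
  refine mat_main hC htri v π hπ _ (Units.map (i.mapMatrix (m := Fin 3)).toMonoidHom) ?_ ?_
  · intro γ
    have h1 : γ.1 ≠ 0 := γ.isUnit.ne_zero
    obtain ⟨j, k, hjk⟩ : ∃ j k, γ.1 j k ≠ 0 := by
      by_contra hcon
      push Not at hcon
      exact h1 (Matrix.ext fun j k => hcon j k)
    exact ⟨j, k, hR _ hjk⟩
  · intro c
    have h1 : (Set.pi Set.univ fun _ : Fin 3 => Set.pi Set.univ fun _ : Fin 3 =>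
        {r : R | v (i r) ≤ exp c}).Finite :=
      Set.Finite.pi fun _ => Set.Finite.pi fun _ => hfin c
    refine Set.Finite.subset (Set.Finite.preimage (f := fun γ : (Matrix (Fin 3) (Fin 3) R)ˣ =>
      (fun j k => γ.1 j k : Fin 3 → Fin 3 → R)) ?_ h1) ?_
    · intro a _ b _ hab
      exact Units.ext (Matrix.ext fun j k => congrFun (congrFun hab j) k)
    · intro γ hγ j _ k _
      exact hγ j k

/-- commutative rings -/
theorem comm_main {C : ∀ (G : Type) [Group G], Prop} (hC : Closed C) (htri : HasCAT0Triangle C)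
    (A : Type) [CommRing A] [IsDomain A] (w : Valuation A ℤᵐ⁰) (hw : IsFiniteAtInfinity w) :
    C (GL (Fin 3) A) := by
  classical
  obtain ⟨a, b, ha, hab⟩ := hw.discrete
  have hne := Pool.Agent.K9h35.SQ.v_ne hw
  have hb : b ≠ 0 := by
    rintro rfl
    rw [map_zero] at hab
    exact mul_ne_zero (hne a ha) exp_ne_zero hab.symm
  let V := Pool.Agent.K9h35.SQ.ext w hne
  have hV := Pool.Agent.K9h35.SQ.ext_apply w hne
  refine ring_main hC htri V (algebraMap A (FractionRing A) a / algebraMap A (FractionRing A) b) ?_ A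
    (algebraMap A (FractionRing A)) ?_ ?_
  · have h1 : V (algebraMap A (FractionRing A) a) = w a := hV a
    have h2 : V (algebraMap A (FractionRing A) b) = w a * exp 1 := (hV b).trans hab
    rw [map_div₀, h1, h2, div_eq_mul_inv, mul_inv, ← mul_assoc, mul_inv_cancel₀ (hne a ha), one_mul,
      ← exp_neg]
  · intro r hr
    rw [hV]
    exact hw.one_le r hr
  · intro c
    refine (hw.finite c).subset fun r hr => ?_
    have h1 : V (algebraMap A (FractionRing A) r) ≤ exp c := hr
    rwa [hV] at h1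

end Pool.Agent.K9h35.TB
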