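import Pool.Agent.K9h35.TB.Mat
import Pool.Agent.K9h35.GL.Coef

/-!
# `GL_3` of polynomial rings over algebraic extensions of finite fields
-/

set_option autoImplicit false

namespace Pool.Agent.K9h35.TB

open WithZero
open Pool.Agent.Y462.SS (Closed)
open Pool.Agent.K9h35.SQ (IsFiniteAtInfinity)

theorem map_inj {R S : Type} [CommRing R] [CommRing S] (e : R →+* S)
    (he : Function.Injective e) :
    Function.Injective (Matrix.GeneralLinearGroup.map (n := Fin 3) e) := by
  intro a b hab
  refine Units.ext (Matrix.ext fun j k => he ?_)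
  exact congrArg (fun g : GL (Fin 3) S => g.1 j k) hab

theorem of_ringHom {C : ∀ (G : Type) [Group G], Prop} (hC : Closed C)
    {R S : Type} [CommRing R] [CommRing S] (e : R →+* S) (he : Function.Injective e)
    (hS : C (GL (Fin 3) S)) : C (GL (Fin 3) R) :=
  hC.of_injective _ _ (Matrix.GeneralLinearGroup.map (n := Fin 3) e) (map_inj _ he) hS

/-- directed unions of subrings -/
theorem union_step {C : ∀ (G : Type) [Group G], Prop} (hC : Closed C)
    {R : Type} [CommRing R] (I : Type) [Preorder I] [Nonempty I] (hI : ∀ i j : I, ∃ k, i ≤ k ∧ j ≤ k)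
    (S : I → Subring R) (hS : Monotone S) (hg : ∀ r : R, ∃ i, r ∈ S i)
    (hc : ∀ i, C (GL (Fin 3) (S i))) : C (GL (Fin 3) R) := by
  refine Pool.Agent.Y430.SS.of_directed hC _ I hI
    (fun i => (Matrix.GeneralLinearGroup.map (n := Fin 3) (S i).subtype).range) ?_ ?_ ?_
  · rintro i j hij _ ⟨g, rfl⟩
    refine ⟨Matrix.GeneralLinearGroup.map (Subring.inclusion (hS hij)) g, ?_⟩
    rfl
  · intro g
    have hdir : ∀ T : Finset R, ∃ i, ∀ r ∈ T, r ∈ S i := by
      classical
      intro T
      induction T using Finset.induction_on with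
      | empty => exact ⟨Classical.arbitrary I, by simp⟩
      | insert a T _ ih =>
        obtain ⟨i, hi⟩ := ih
        obtain ⟨j, hj⟩ := hg a
        obtain ⟨k, h1, h2⟩ := hI i j
        refine ⟨k, fun r hr => ?_⟩
        rcases Finset.mem_insert.1 hr with rfl | hr
        · exact hS h2 hj
        · exact hS h1 (hi r hr)
    classical
    obtain ⟨i, hi⟩ := hdir (Finset.univ.image (fun p : Fin 3 × Fin 3 => g.1 p.1 p.2) ∪
      Finset.univ.image (fun p : Fin 3 × Fin 3 => g⁻¹.1 p.1 p.2))
    have h1 : ∀ j k, g.1 j k ∈ S i := fun j k => hi _ (by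
      rw [Finset.mem_union]; left; exact Finset.mem_image.2 ⟨(j, k), Finset.mem_univ _, rfl⟩)
    have h2 : ∀ j k, g⁻¹.1 j k ∈ S i := fun j k => hi _ (by
      rw [Finset.mem_union]; right; exact Finset.mem_image.2 ⟨(j, k), Finset.mem_univ _, rfl⟩)
    have hsub : ∀ M N : Matrix (Fin 3) (Fin 3) (S i),
        (M.map (S i).subtype) = (N.map (S i).subtype) → M = N := by
      intro M N h
      ext j k
      exact congrArg (fun Q : Matrix (Fin 3) (Fin 3) R => Q j k) h
    refine ⟨i, ⟨⟨Matrix.of fun j k => ⟨g.1 j k, h1 j k⟩, Matrix.of fun j k => ⟨g⁻¹.1 j k, h2 j k⟩, ?_, ?_⟩, ?_⟩⟩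
    · refine hsub _ _ ?_
      rw [Matrix.map_mul, Matrix.map_one _ (map_zero _) (map_one _)]
      exact g.mul_inv
    · refine hsub _ _ ?_
      rw [Matrix.map_mul, Matrix.map_one _ (map_zero _) (map_one _)]
      exact g.inv_mul
    · exact Units.ext rfl
  · intro i
    have e := MonoidHom.ofInjective (f := Matrix.GeneralLinearGroup.map (n := Fin 3) (S i).subtype)
      (map_inj _ Subtype.val_injective)
    exact hC.of_injective _ _ e.symm.toMonoidHom e.symm.injective (hc i)

/-- finitely many variables over a finite field -/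
theorem mvpoly_fin {C : ∀ (G : Type) [Group G], Prop} (hC : Closed C) (htri : HasCAT0Triangle C)
    (k : Type) [Field k] [Finite k] (n : ℕ) : C (GL (Fin 3) (MvPolynomial (Fin n) k)) := by
  refine of_ringHom hC (MvPolynomial.rename (Fin.castSucc : Fin n → Fin (n + 1))).toRingHom
    (MvPolynomial.rename_injective _ (Fin.castSucc_injective n)) ?_
  exact comm_main hC htri (MvPolynomial (Fin (n + 1)) k) _
    (Pool.Agent.K9h35.SQ.degVal_finite k (n + 1) (Nat.succ_pos n))

/-- any number of variables over a finite field -/
theorem mvpoly_any {C : ∀ (G : Type) [Group G], Prop} (hC : Closed C) (htri : HasCAT0Triangle C)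
    (k : Type) [Field k] [Finite k] (I : Type) : C (GL (Fin 3) (MvPolynomial I k)) := by
  classical
  refine union_step hC (Finset I) (fun i j => ⟨i ∪ j, Finset.subset_union_left, Finset.subset_union_right⟩)
    (fun s => (MvPolynomial.supported k (s : Set I)).toSubring)
    (fun s t h => MvPolynomial.supported_mono (by exact_mod_cast h)) (fun r => ⟨r.vars, ?_⟩) fun s => ?_
  · exact MvPolynomial.mem_supported_vars r
  · let e := MvPolynomial.supportedEquivMvPolynomial (R := k) (s : Set I)
    let e' := MvPolynomial.renameEquiv k (Fintype.equivFin (s : Set I))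
    let f : ↥(MvPolynomial.supported k (s : Set I)).toSubring →+*
        MvPolynomial (Fin (Fintype.card (s : Set I))) k :=
      (e'.toRingEquiv.toRingHom).comp e.toRingEquiv.toRingHom
    exact of_ringHom hC f (e'.injective.comp e.injective)
      (mvpoly_fin hC htri k (Fintype.card (s : Set I)))

/-- algebraic extensions of finite fields -/
theorem mvpoly_alg {C : ∀ (G : Type) [Group G], Prop} (hC : Closed C) (htri : HasCAT0Triangle C)
    (k K : Type) [Field k] [Field K] [Finite k] [Algebra k K] [Algebra.IsAlgebraic k K] (I : Type) :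
    C (GL (Fin 3) (MvPolynomial I K)) := by
  classical
  refine union_step hC (Finset K) (fun i j => ⟨i ∪ j, Finset.subset_union_left, Finset.subset_union_right⟩)
    (fun s => (MvPolynomial.map (σ := I) (algebraMap (IntermediateField.adjoin k (s : Set K)) K)).range)
    ?_ (fun r => ⟨r.coeffs, ?_⟩) fun s => ?_
  · rintro s t h _ ⟨p, rfl⟩
    have hst : IntermediateField.adjoin k (s : Set K) ≤ IntermediateField.adjoin k (t : Set K) :=
      IntermediateField.adjoin.mono k _ _ (by exact_mod_cast h)
    refine ⟨MvPolynomial.map (IntermediateField.inclusion hst).toRingHom p, ?_⟩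
    rw [MvPolynomial.map_map]
    rfl
  · refine MvPolynomial.mem_range_map_iff_coeffs_subset.2 ?_
    intro c hc
    exact ⟨⟨c, IntermediateField.subset_adjoin k _ (by exact_mod_cast hc)⟩, rfl⟩
  · have h1 : FiniteDimensional k (IntermediateField.adjoin k (s : Set K)) :=
      IntermediateField.finiteDimensional_adjoin fun x _ => Algebra.IsIntegral.isIntegral x
    have h2 : Finite (IntermediateField.adjoin k (s : Set K)) := Module.finite_of_finite k
    have hinj : Function.Injective
        (MvPolynomial.map (σ := I) (algebraMap (IntermediateField.adjoin k (s : Set K)) K)) :=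
      MvPolynomial.map_injective _ (algebraMap (IntermediateField.adjoin k (s : Set K)) K).injective
    let e := RingEquiv.ofBijective
      (MvPolynomial.map (σ := I)
        (algebraMap (IntermediateField.adjoin k (s : Set K)) K)).rangeRestrict
      ⟨fun a b hab => hinj (congrArg Subtype.val hab), RingHom.rangeRestrict_surjective _⟩
    exact of_ringHom hC e.symm.toRingHom e.symm.injective
      (mvpoly_any hC htri (IntermediateField.adjoin k (s : Set K)) I)

end Pool.Agent.K9h35.TB
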