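import Pool.Agent.K9h35.SQ.Tree

/-!
# Lattices with a shift and their triangle complexes
-/

set_option autoImplicit false

namespace Pool.Agent.K9h35.TB

open Pool.Agent.K9h35.SQ

/-- An automorphism `σ` of the ordered set `A` with suprema such that `x < σ x` for all `x`, any two
elements are comparable up to powers of `σ`, and the chains from `x` to `σ x` have at most three
steps. For example, `A` is the set of the lattices in a vector space of dimension three over a field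
with a discrete valuation and `σ` is the multiplication by the inverse of a uniformizer. -/
structure IsShift {A : Type} [SemilatticeSup A] (σ : A ≃o A) : Prop where
  lt : ∀ x, x < σ x
  cofinal : ∀ x y, ∃ n : ℕ, x ≤ (σ ^ n) y
  height : ∀ x a b c, x < a → a < b → b < c → ¬ c < σ x

section

variable {A : Type} [SemilatticeSup A] {σ : A ≃o A}

theorem zadd (j k : ℤ) (x : A) : (σ ^ (j + k)) x = (σ ^ j) ((σ ^ k) x) := by
  rw [zpow_add, RelIso.mul_apply]

theorem zone (x : A) : (σ ^ (1 : ℤ)) x = σ x := by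
  rw [zpow_one]

theorem zzero (x : A) : (σ ^ (0 : ℤ)) x = x := by
  rw [zpow_zero]
  rfl

theorem zneg (k : ℤ) (x : A) : (σ ^ k) ((σ ^ (-k)) x) = x := by
  rw [← zadd, add_neg_cancel, zzero]

theorem zneg' (k : ℤ) (x : A) : (σ ^ (-k)) ((σ ^ k) x) = x := by
  rw [← zadd, neg_add_cancel, zzero]

theorem zmono (k : ℤ) {x y : A} (h : x ≤ y) : (σ ^ k) x ≤ (σ ^ k) y := (OrderIso.le_iff_le _).2 h

theorem zle_iff (k : ℤ) {x y : A} : (σ ^ k) x ≤ (σ ^ k) y ↔ x ≤ y := OrderIso.le_iff_le _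

theorem zcomm (k : ℤ) (x : A) : σ ((σ ^ k) x) = (σ ^ k) (σ x) := by
  rw [← zone (σ := σ) ((σ ^ k) x), ← zone (σ := σ) x, ← zadd, ← zadd, add_comm]

variable (hσ : IsShift σ)

include hσ

theorem shift_le_nat (n : ℕ) (x : A) : x ≤ (σ ^ (n : ℤ)) x := by
  induction n with
  | zero => rw [Nat.cast_zero, zzero]
  | succ n ih =>
    rw [Nat.cast_succ, add_comm, zadd, zone]
    exact ih.trans (hσ.lt _).le

theorem shift_le {k : ℤ} (hk : 0 ≤ k) (x : A) : x ≤ (σ ^ k) x := by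
  obtain ⟨n, rfl⟩ := Int.eq_ofNat_of_zero_le hk
  exact shift_le_nat hσ n x

theorem shift_le_shift {j k : ℤ} (h : j ≤ k) (x : A) : (σ ^ j) x ≤ (σ ^ k) x := by
  have e : k = (k - j) + j := by ring
  rw [e, zadd]
  exact shift_le hσ (by omega) _

theorem shift_lt {k : ℤ} (hk : 0 < k) (x : A) : x < (σ ^ k) x :=
  (hσ.lt x).trans_le (by
    have h := shift_le_shift hσ (show (1 : ℤ) ≤ k by omega) x
    rwa [zone] at h)

theorem shift_eq {k : ℤ} {x : A} (h : (σ ^ k) x = x) : k = 0 := by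
  rcases lt_trichotomy k 0 with h1 | h1 | h1
  · exfalso
    have h2 := shift_lt hσ (show 0 < -k by omega) ((σ ^ k) x)
    rw [zneg', h] at h2
    exact lt_irrefl _ h2
  · exact h1
  · exact absurd h (shift_lt hσ h1 x).ne'

theorem cofinal_z (x y : A) : ∃ k : ℤ, ∀ j : ℤ, k ≤ j → x ≤ (σ ^ j) y := by
  obtain ⟨n, hn⟩ := hσ.cofinal x y
  refine ⟨n, fun j hj => ?_⟩
  have h : (σ ^ (n : ℤ)) y ≤ (σ ^ j) y := shift_le_shift hσ hj y
  rw [zpow_natCast] at h
  exact hn.trans h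

end

section

variable {A : Type} [SemilatticeSup A] (σ : A ≃o A)

/-- the orbits of the powers of `σ` -/
def shSetoid : Setoid A where
  r x y := ∃ k : ℤ, (σ ^ k) x = y
  iseqv := by
    refine ⟨fun x => ⟨0, zzero x⟩, ?_, ?_⟩
    · rintro x y ⟨k, rfl⟩
      exact ⟨-k, zneg' k x⟩
    · rintro x y z ⟨j, rfl⟩ ⟨k, rfl⟩
      exact ⟨k + j, zadd k j x⟩

/-- the set of the orbits -/
def Vx : Type := Quotient (shSetoid σ)

/-- the orbit of `x` -/
def cl (x : A) : Vx σ := Quotient.mk (shSetoid σ) x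

theorem cl_surj (p : Vx σ) : ∃ x, cl σ x = p := Quotient.exists_rep p

theorem cl_eq {x y : A} : cl σ x = cl σ y ↔ ∃ k : ℤ, (σ ^ k) x = y :=
  ⟨fun h => Quotient.exact h, fun h => Quotient.sound h⟩

theorem cl_shift (k : ℤ) (x : A) : cl σ ((σ ^ k) x) = cl σ x := ((cl_eq σ).2 ⟨k, rfl⟩).symm

theorem cl_shift' (x : A) : cl σ (σ x) = cl σ x := by
  have h := cl_shift σ 1 x
  rwa [zone] at h

/-- `p` and `q` have representatives with `x ≤ y ≤ σ x` -/
def Nr (p q : Vx σ) : Prop := ∃ x y, cl σ x = p ∧ cl σ y = q ∧ x ≤ y ∧ y ≤ σ x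

theorem nr_rep {x : A} {q : Vx σ} (h : Nr σ (cl σ x) q) : ∃ y, cl σ y = q ∧ x ≤ y ∧ y ≤ σ x := by
  obtain ⟨x', y', h1, h2, h3, h4⟩ := h
  obtain ⟨k, rfl⟩ := (cl_eq σ).1 h1
  refine ⟨(σ ^ k) y', by rw [cl_shift, h2], zmono k h3, ?_⟩
  rw [zcomm]
  exact zmono k h4

theorem nr_symm {p q : Vx σ} (h : Nr σ p q) : Nr σ q p := by
  obtain ⟨x, y, h1, h2, h3, h4⟩ := h
  refine ⟨y, σ x, h2, by rw [cl_shift', h1], h4, ?_⟩
  exact (OrderIso.le_iff_le _).2 h3

/-- the triangle complex -/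
def bt : Cx (Vx σ) where
  graph :=
    { Adj := fun p q => p ≠ q ∧ Nr σ p q
      symm := ⟨fun _ _ h => ⟨h.1.symm, nr_symm σ h.2⟩⟩
      loopless := ⟨fun _ h => h.1 rfl⟩ }
  cell x c := ∃ a b, c = [a, b, x] ∧ (x ≠ a ∧ Nr σ x a) ∧ (a ≠ b ∧ Nr σ a b) ∧ (b ≠ x ∧ Nr σ b x)
  cell_path := by
    rintro x _ ⟨a, b, rfl, h1, h2, h3⟩
    exact ⟨⟨h1, h2, h3, trivial⟩, rfl⟩
  cell_rot := by
    rintro x v c ⟨a, b, h, h1, h2, h3⟩
    simp only [List.cons.injEq] at h
    obtain ⟨rfl, rfl⟩ := h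
    exact ⟨b, x, rfl, h2, h3, h1⟩
  cell_inv := by
    rintro x _ ⟨a, b, rfl, h1, h2, h3⟩
    refine ⟨b, a, rfl, ?_, ?_, ?_⟩
    · exact ⟨h3.1.symm, nr_symm σ h3.2⟩
    · exact ⟨h2.1.symm, nr_symm σ h2.2⟩
    · exact ⟨h1.1.symm, nr_symm σ h1.2⟩

end

/-- Triangle complexes of nonpositive curvature: all two-cells are triangles, and there are no closed
paths of length less than six in the links. (The edges of the link of `x` are the pairs `a`, `b` such
that there is a triangle `x`, `a`, `b`.) -/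
structure IsNPCTriangle {V : Type} (X : Cx V) : Prop where
  len : ∀ x c, X.cell x c → c.length = 3
  three : ∀ x a b c, X.cell x [a, b, x] → X.cell x [b, c, x] → ¬ X.cell x [c, a, x]
  four : ∀ x a b c d, X.cell x [a, b, x] → X.cell x [b, c, x] → X.cell x [c, d, x] →
    X.cell x [d, a, x] → a = c ∨ b = d
  five : ∀ x a b c d e, X.cell x [a, b, x] → X.cell x [b, c, x] → X.cell x [c, d, x] →
    X.cell x [d, e, x] → ¬ X.cell x [e, a, x]

theorem triangle_immersion (V W : Type) (Y : Cx W) (X : Cx V) (φ : W → V) (h : IsImmersion Y X φ)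
    (hX : IsNPCTriangle X) : IsNPCTriangle Y where
  len x c hc := by simpa using hX.len _ _ (h.cell _ _ hc)
  three x a b c h1 h2 h3 := hX.three _ _ _ _ (h.cell _ _ h1) (h.cell _ _ h2) (h.cell _ _ h3)
  four x a b c d h1 h2 h3 h4 := by
    rcases hX.four _ _ _ _ _ (h.cell _ _ h1) (h.cell _ _ h2) (h.cell _ _ h3) (h.cell _ _ h4) with
      h5 | h5
    · exact Or.inl (h.inj x a c (Y.cell_path _ _ h1).1.1 (Y.cell_path _ _ h3).1.1 h5)
    · exact Or.inr (h.inj x b d (Y.cell_path _ _ h2).1.1 (Y.cell_path _ _ h4).1.1 h5)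
  five x a b c d e h1 h2 h3 h4 h5 :=
    hX.five _ _ _ _ _ _ (h.cell _ _ h1) (h.cell _ _ h2) (h.cell _ _ h3) (h.cell _ _ h4)
      (h.cell _ _ h5)

section npc

variable {A : Type} [SemilatticeSup A] {σ : A ≃o A}

/-- the representative between `x` and `σ x` -/
def Rp (σ : A ≃o A) (x : A) (q : Vx σ) (y : A) : Prop := cl σ y = q ∧ x < y ∧ y < σ x

theorem exists_rp {x : A} {q : Vx σ} (h : cl σ x ≠ q ∧ Nr σ (cl σ x) q) : ∃ y, Rp σ x q y := by
  obtain ⟨y, h1, h2, h3⟩ := nr_rep σ h.2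
  refine ⟨y, h1, lt_of_le_of_ne h2 ?_, lt_of_le_of_ne h3 ?_⟩
  · rintro rfl
    exact h.1 h1
  · rintro rfl
    exact h.1 (by rw [← h1, cl_shift'])

variable (hσ : IsShift σ)

include hσ

theorem rp_unique {x : A} {q : Vx σ} {y z : A} (hy : Rp σ x q y) (hz : Rp σ x q z) : y = z := by
  obtain ⟨k, hk⟩ := (cl_eq σ).1 (hy.1.trans hz.1.symm)
  rcases lt_trichotomy k 0 with h1 | h1 | h1
  · exfalso
    have h2 : (σ ^ k) y ≤ x := by
      have h3 : (σ ^ k) y ≤ (σ ^ (-1 : ℤ)) y := shift_le_shift hσ (by omega) y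
      have h4 : (σ ^ (-1 : ℤ)) y ≤ (σ ^ (-1 : ℤ)) (σ x) := zmono _ hy.2.2.le
      have h5 : (σ ^ (-1 : ℤ)) (σ x) = x := by
        have := zneg' (σ := σ) 1 x
        rwa [zone] at this
      rw [h5] at h4
      exact h3.trans h4
    rw [hk] at h2
    exact absurd hz.2.1 (not_lt_of_ge h2)
  · subst h1
    rw [zzero] at hk
    exact hk
  · exfalso
    have h2 : σ x < (σ ^ k) y := by
      have h3 : (σ ^ (1 : ℤ)) y ≤ (σ ^ k) y := shift_le_shift hσ (by omega) y
      rw [zone] at h3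
      exact lt_of_lt_of_le ((OrderIso.lt_iff_lt σ).2 hy.2.1) h3
    rw [hk] at h2
    exact lt_asymm h2 hz.2.2

theorem rp_comp {x : A} {q r : Vx σ} {y z : A} (hy : Rp σ x q y) (hz : Rp σ x r z)
    (h : q ≠ r ∧ Nr σ q r) : y < z ∨ z < y := by
  have hne : y ≠ z := by
    rintro rfl
    exact h.1 (hy.1.symm.trans hz.1)
  have h1 := h.2
  rw [← hy.1] at h1
  obtain ⟨z', h2, h3, h4⟩ := nr_rep σ h1
  obtain ⟨k, hk⟩ := (cl_eq σ).1 (hz.1.trans h2.symm)
  rcases Int.lt_or_le 0 k with h5 | h5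
  · right
    refine lt_of_le_of_ne ?_ hne.symm
    have h6 : (σ ^ (1 : ℤ)) z ≤ (σ ^ k) z := shift_le_shift hσ (by omega) z
    rw [zone, hk] at h6
    exact (OrderIso.le_iff_le σ).1 (h6.trans h4)
  · left
    refine lt_of_le_of_ne ?_ hne
    have h6 : (σ ^ k) z ≤ (σ ^ (0 : ℤ)) z := shift_le_shift hσ h5 z
    rw [hk, zzero] at h6
    exact h3.trans h6

theorem no_chain {x : A} {p r : Vx σ} {u v w : A} (hu : Rp σ x p u) (hw : Rp σ x r w)
    (h1 : u < v) (h2 : v < w) : False := hσ.height x u v w hu.2.1 h1 h2 hw.2.2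

theorem bt_npc : IsNPCTriangle (bt σ) where
  len := by
    rintro x _ ⟨a, b, rfl, -, -, -⟩
    rfl
  three := by
    rintro p a b c ⟨a', b', h, h1, h2, h3⟩ ⟨b'', c', h', h1', h2', h3'⟩ ⟨c'', a'', h'', h1'', h2'', h3''⟩
    simp only [List.cons.injEq, and_true] at h h' h''
    obtain ⟨rfl, rfl⟩ := h
    obtain ⟨rfl, rfl⟩ := h'
    obtain ⟨rfl, rfl⟩ := h''
    obtain ⟨x, rfl⟩ := cl_surj σ p
    obtain ⟨y1, r1⟩ := exists_rp h1
    obtain ⟨y2, r2⟩ := exists_rp h1'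
    obtain ⟨y3, r3⟩ := exists_rp h1''
    rcases rp_comp hσ r1 r2 h2 with g1 | g1 <;> rcases rp_comp hσ r2 r3 h2' with g2 | g2 <;>
      rcases rp_comp hσ r3 r1 h2'' with g3 | g3
    · exact lt_irrefl _ ((g1.trans g2).trans g3)
    · exact no_chain hσ r1 r3 g1 g2
    · exact no_chain hσ r3 r2 g3 g1
    · exact no_chain hσ r1 r2 g3 g2
    · exact no_chain hσ r2 r1 g2 g3
    · exact no_chain hσ r2 r3 g1 g3
    · exact no_chain hσ r3 r1 g2 g1
    · exact lt_irrefl _ ((g1.trans g3).trans g2)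
  four := by
    rintro p a b c d ⟨_, _, e1, h1, k1, -⟩ ⟨_, _, e2, h2, k2, -⟩ ⟨_, _, e3, h3, k3, -⟩
      ⟨_, _, e4, h4, k4, -⟩
    simp only [List.cons.injEq, and_true] at e1 e2 e3 e4
    obtain ⟨rfl, rfl⟩ := e1
    obtain ⟨rfl, rfl⟩ := e2
    obtain ⟨rfl, rfl⟩ := e3
    obtain ⟨rfl, rfl⟩ := e4
    by_contra hcon
    push Not at hcon
    obtain ⟨hac, hbd⟩ := hcon
    obtain ⟨x, rfl⟩ := cl_surj σ p
    obtain ⟨y1, r1⟩ := exists_rp h1
    obtain ⟨y2, r2⟩ := exists_rp h2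
    obtain ⟨y3, r3⟩ := exists_rp h3
    obtain ⟨y4, r4⟩ := exists_rp h4
    have n13 : y1 ≠ y3 := by
      rintro rfl
      exact hac (r1.1.symm.trans r3.1)
    have n24 : y2 ≠ y4 := by
      rintro rfl
      exact hbd (r2.1.symm.trans r4.1)
    -- four different elements, `s, t < u, v`
    have key : ∀ (s t u v : A) (p' q' r' s' : Vx σ), Rp σ x p' s → Rp σ x q' t → Rp σ x r' u →
        Rp σ x s' v → s ≠ t → u ≠ v → s < u → s < v → t < u → t < v → False := by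
      intro s t u v p' q' r' s' hs ht hu hv hst huv h1 h2 h3 h4
      have g1 : s < s ⊔ t := by
        refine lt_of_le_of_ne le_sup_left fun h => ?_
        have h5 : t ≤ s := by
          rw [h]
          exact le_sup_right
        have h6 : t < s := lt_of_le_of_ne h5 hst.symm
        exact no_chain hσ ht hu h6 h1
      have g2 : s ⊔ t < u := by
        refine lt_of_le_of_ne (sup_le h1.le h3.le) fun h => ?_
        have h5 : u ≤ v := by
          rw [← h]
          exact sup_le h2.le h4.le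
        have h6 : u < v := lt_of_le_of_ne h5 huv
        exact no_chain hσ hs hv h1 h6
      exact no_chain hσ hs hu g1 g2
    rcases rp_comp hσ r1 r2 k1 with g1 | g1
    · rcases rp_comp hσ r2 r3 k2 with g2 | g2
      · exact no_chain hσ r1 r3 g1 g2
      · rcases rp_comp hσ r3 r4 k3 with g3 | g3
        · rcases rp_comp hσ r4 r1 k4 with g4 | g4
          · exact no_chain hσ r3 r1 g3 g4
          · exact key _ _ _ _ _ _ _ _ r1 r3 r2 r4 n13 n24 g1 g4 g2 g3
        · exact no_chain hσ r4 r2 g3 g2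
    · rcases rp_comp hσ r2 r3 k2 with g2 | g2
      · rcases rp_comp hσ r3 r4 k3 with g3 | g3
        · exact no_chain hσ r2 r4 g2 g3
        · rcases rp_comp hσ r4 r1 k4 with g4 | g4
          · exact key _ _ _ _ _ _ _ _ r2 r4 r1 r3 n24 n13 g1 g2 g4 g3
          · exact no_chain hσ r2 r4 g1 g4
      · exact no_chain hσ r3 r1 g2 g1
  five := by
    rintro p a b c d e ⟨_, _, e1, h1, k1, -⟩ ⟨_, _, e2, h2, k2, -⟩ ⟨_, _, e3, h3, k3, -⟩
      ⟨_, _, e4, h4, k4, -⟩ ⟨_, _, e5, h5, k5, -⟩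
    simp only [List.cons.injEq, and_true] at e1 e2 e3 e4 e5
    obtain ⟨rfl, rfl⟩ := e1
    obtain ⟨rfl, rfl⟩ := e2
    obtain ⟨rfl, rfl⟩ := e3
    obtain ⟨rfl, rfl⟩ := e4
    obtain ⟨rfl, rfl⟩ := e5
    obtain ⟨x, rfl⟩ := cl_surj σ p
    obtain ⟨y1, r1⟩ := exists_rp h1
    obtain ⟨y2, r2⟩ := exists_rp h2
    obtain ⟨y3, r3⟩ := exists_rp h3
    obtain ⟨y4, r4⟩ := exists_rp h4
    obtain ⟨y5, r5⟩ := exists_rp h5
    rcases rp_comp hσ r1 r2 k1 with g1 | g1
    · rcases rp_comp hσ r2 r3 k2 with g2 | g2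
      · exact no_chain hσ r1 r3 g1 g2
      rcases rp_comp hσ r3 r4 k3 with g3 | g3
      · rcases rp_comp hσ r4 r5 k4 with g4 | g4
        · exact no_chain hσ r3 r5 g3 g4
        rcases rp_comp hσ r5 r1 k5 with g5 | g5
        · exact no_chain hσ r5 r2 g5 g1
        · exact no_chain hσ r1 r4 g5 g4
      · exact no_chain hσ r4 r2 g3 g2
    · rcases rp_comp hσ r2 r3 k2 with g2 | g2
      · rcases rp_comp hσ r3 r4 k3 with g3 | g3
        · exact no_chain hσ r2 r4 g2 g3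
        rcases rp_comp hσ r4 r5 k4 with g4 | g4
        · rcases rp_comp hσ r5 r1 k5 with g5 | g5
          · exact no_chain hσ r4 r1 g4 g5
          · exact no_chain hσ r2 r5 g1 g5
        · exact no_chain hσ r5 r3 g4 g3
      · exact no_chain hσ r3 r1 g2 g1

end npc

end Pool.Agent.K9h35.TB
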